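import Mathlib

/-! Complex conjugations in the absolute Galois group of a number field. -/

set_option autoImplicit false
set_option linter.unusedSectionVars false

namespace Pool.Agent.Q246.RP

open NumberField
open scoped Classical ComplexConjugate

section
variable {K : Type} [Field K] [NumberField K]

/-- complex conjugations: `ι ∘ σ = conj ∘ ι` for an embedding `ι` of the algebraic closure -/
def IsCC (σ : Gal(AlgebraicClosure K/K)) : Prop :=
  ∃ ι : AlgebraicClosure K →+* ℂ, ∀ x, ι (σ x) = conj (ι x)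

/-- homomorphisms to `ℂ` factor through the algebraic closure -/
theorem factor {Ω : Type} [Field Ω] [IsAlgClosed Ω] [Algebra K Ω] [Algebra K ℂ] (ι : Ω →ₐ[K] ℂ)
    {F : Type} [Field F] [Algebra K F] [FiniteDimensional K F] (j : F →ₐ[K] ℂ) :
    ∃ i : F →ₐ[K] Ω, ι.comp i = j := by
  have hinj : Function.Injective (fun i : F →ₐ[K] Ω => ι.comp i) := by
    intro a b h
    apply AlgHom.ext
    intro x
    exact ι.injective (DFunLike.congr_fun h x)
  have hb := (Fintype.bijective_iff_injective_and_card (fun i : F →ₐ[K] Ω => ι.comp i)).2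
    ⟨hinj, by rw [AlgHom.card, AlgHom.card]⟩
  exact hb.2 j

/-- the automorphisms with a property of the value at `x` form a clopen set -/
theorem isClopen_eval (x : AlgebraicClosure K) (P : AlgebraicClosure K → Prop) :
    IsClopen {τ : Gal(AlgebraicClosure K/K) | P (τ x)} := by
  have hfd : FiniteDimensional K (IntermediateField.adjoin K {x}) :=
    IntermediateField.adjoin.finiteDimensional (Algebra.IsIntegral.isIntegral x)
  have hop : ∀ P : AlgebraicClosure K → Prop,
      IsOpen {τ : Gal(AlgebraicClosure K/K) | P (τ x)} := by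
    intro P
    rw [isOpen_iff_mem_nhds]
    intro τ hτ
    have h1 := (IntermediateField.fixingSubgroup_isOpen
      (IntermediateField.adjoin K {x})).leftCoset τ
    refine Filter.mem_of_superset (h1.mem_nhds ?_) ?_
    · exact ⟨1, one_mem _, mul_one _⟩
    · rintro _ ⟨u, hu, rfl⟩
      have h2 : u x = x := (IntermediateField.mem_fixingSubgroup_iff _ _).1 hu x
        (IntermediateField.mem_adjoin_simple_self K x)
      change P ((τ * u) x)
      rw [AlgEquiv.mul_apply, h2]
      exact hτ
  refine ⟨⟨?_⟩, hop P⟩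
  exact hop fun y => ¬ P y

/-- **Step 1.** An embedding which is real on the field fixed by `σ`. -/
theorem exists_real (σ : Gal(AlgebraicClosure K/K))
    (h : ∀ F : IntermediateField K (AlgebraicClosure K), FiniteDimensional K F →
      (∀ x ∈ F, σ x = x) → Nonempty (F →+* ℝ)) :
    ∃ ι : AlgebraicClosure K →+* ℂ, (∀ k : K, conj (ι (algebraMap K _ k)) = ι (algebraMap K _ k)) ∧
      ∀ x, σ x = x → conj (ι x) = ι x := by
  -- the restriction to `K`
  obtain ⟨ρ, hρ⟩ : ∃ ρ : K →+* ℝ, ∀ F : IntermediateField K (AlgebraicClosure K),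
      FiniteDimensional K F → (∀ x ∈ F, σ x = x) →
      ∃ j : F →+* ℝ, j.comp (algebraMap K F) = ρ := by
    by_contra hcon
    push Not at hcon
    choose f hf hfx hno using hcon
    have hfin : Finite (K →+* ℝ) := inferInstance
    have hfd : FiniteDimensional K (⨆ ρ, f ρ : IntermediateField K (AlgebraicClosure K)) :=
      IntermediateField.finiteDimensional_iSup_of_finite
    let G : IntermediateField K (AlgebraicClosure K) :=
      IntermediateField.fixedField (Subgroup.zpowers σ)
    have hG : ∀ x ∈ G, σ x = x := fun x hx =>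
      (IntermediateField.mem_fixedField_iff _ _).1 hx σ (Subgroup.mem_zpowers σ)
    have hG' : ∀ x, σ x = x → x ∈ G := by
      intro x hx
      rw [IntermediateField.mem_fixedField_iff]
      rintro _ ⟨n, rfl⟩
      have h4 : σ ∈ MulAction.stabilizer (Gal(AlgebraicClosure K/K)) x := hx
      exact Subgroup.zpow_mem _ h4 n
    have hle : (⨆ ρ, f ρ) ≤ G := iSup_le fun ρ x hx => hG' x (hfx ρ x hx)
    obtain ⟨j⟩ := h _ hfd fun x hx => hG x (hle hx)
    refine hno (j.comp (algebraMap K _)) (j.comp
      (IntermediateField.inclusion (le_iSup f (j.comp (algebraMap K _)))).toRingHom) ?_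
    ext k
    rfl
  let _ : Algebra K ℂ := (Complex.ofRealHom.comp ρ).toAlgebra
  have halg : ∀ k : K, algebraMap K ℂ k = ((ρ k : ℝ) : ℂ) := fun k => rfl
  let ι₀ : AlgebraicClosure K →ₐ[K] ℂ := IsAlgClosed.lift
  let I : Type := {F : IntermediateField K (AlgebraicClosure K) //
    FiniteDimensional K F ∧ ∀ x ∈ F, σ x = x}
  let Z : I → Set (Gal(AlgebraicClosure K/K)) := fun F =>
    ⋂ x : F.1, {τ | conj (ι₀ (τ x)) = ι₀ (τ x)}
  have hne : Nonempty I := ⟨⟨⊥, inferInstance, fun x hx => by
    obtain ⟨k, rfl⟩ := IntermediateField.mem_bot.1 hx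
    exact σ.commutes k⟩⟩
  have hZc : ∀ F, IsClosed (Z F) := fun F => isClosed_iInter fun x =>
    (isClopen_eval (x : AlgebraicClosure K) fun y => conj (ι₀ y) = ι₀ y).1
  have hZn : ∀ F, (Z F).Nonempty := by
    intro F
    have hfd := F.2.1
    obtain ⟨j, hj⟩ := hρ F.1 F.2.1 F.2.2
    let j' : F.1 →ₐ[K] ℂ :=
      { Complex.ofRealHom.comp j with
        commutes' := fun k => by
          have h1 := DFunLike.congr_fun hj k
          change ((j (algebraMap K F.1 k) : ℝ) : ℂ) = ((ρ k : ℝ) : ℂ)
          rw [← h1]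
          rfl }
    obtain ⟨i, hi⟩ := factor (K := K) ι₀ j'
    have hb : Function.Bijective (i.liftNormal (AlgebraicClosure K)) :=
      AlgHom.normal_bijective K (AlgebraicClosure K) (AlgebraicClosure K) _
    refine ⟨AlgEquiv.ofBijective (i.liftNormal (AlgebraicClosure K)) hb, ?_⟩
    rw [Set.mem_iInter]
    intro x
    have h1 : (i.liftNormal (AlgebraicClosure K)) (x : AlgebraicClosure K) = i x :=
      i.liftNormal_commutes (AlgebraicClosure K) x
    have h2 : ι₀ (i x) = ((j x : ℝ) : ℂ) := DFunLike.congr_fun hi x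
    change conj (ι₀ ((i.liftNormal (AlgebraicClosure K)) (x : AlgebraicClosure K))) =
      ι₀ ((i.liftNormal (AlgebraicClosure K)) (x : AlgebraicClosure K))
    rw [h1, h2, Complex.conj_ofReal]
  have hdir : Directed (· ⊇ ·) Z := by
    intro F F'
    have h1 := F.2.1
    have h2 := F'.2.1
    have h3 : FiniteDimensional K (F.1 ⊔ F'.1 : IntermediateField K (AlgebraicClosure K)) :=
      IntermediateField.finiteDimensional_sup _ _
    let G : IntermediateField K (AlgebraicClosure K) :=
      IntermediateField.fixedField (Subgroup.zpowers σ)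
    have hG : ∀ x ∈ G, σ x = x := fun x hx =>
      (IntermediateField.mem_fixedField_iff _ _).1 hx σ (Subgroup.mem_zpowers σ)
    have hG' : ∀ x, σ x = x → x ∈ G := by
      intro x hx
      rw [IntermediateField.mem_fixedField_iff]
      rintro _ ⟨n, rfl⟩
      have h4 : σ ∈ MulAction.stabilizer (Gal(AlgebraicClosure K/K)) x := hx
      exact Subgroup.zpow_mem _ h4 n
    have hle : F.1 ⊔ F'.1 ≤ G := sup_le (fun x hx => hG' x (F.2.2 x hx))
      fun x hx => hG' x (F'.2.2 x hx)
    refine ⟨⟨F.1 ⊔ F'.1, h3, fun x hx => hG x (hle hx)⟩, ?_, ?_⟩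
    · intro τ hτ
      rw [Set.mem_iInter] at hτ ⊢
      exact fun x => hτ ⟨x, (le_sup_left : F.1 ≤ F.1 ⊔ F'.1) x.2⟩
    · intro τ hτ
      rw [Set.mem_iInter] at hτ ⊢
      exact fun x => hτ ⟨x, (le_sup_right : F'.1 ≤ F.1 ⊔ F'.1) x.2⟩
  obtain ⟨τ, hτ⟩ := IsCompact.nonempty_iInter_of_directed_nonempty_isCompact_isClosed Z hdir hZn
    (fun F => (hZc F).isCompact) hZc
  rw [Set.mem_iInter] at hτ
  refine ⟨(ι₀ : AlgebraicClosure K →+* ℂ).comp (τ : AlgebraicClosure K →+* AlgebraicClosure K),
    fun k => ?_, fun x hx => ?_⟩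
  · change conj (ι₀ (τ (algebraMap K _ k))) = ι₀ (τ (algebraMap K _ k))
    rw [τ.commutes, AlgHom.commutes, halg, Complex.conj_ofReal]
  · have hfd : FiniteDimensional K (IntermediateField.adjoin K {x}) :=
      IntermediateField.adjoin.finiteDimensional (Algebra.IsIntegral.isIntegral x)
    let G : IntermediateField K (AlgebraicClosure K) :=
      IntermediateField.fixedField (Subgroup.zpowers σ)
    have hG : ∀ x ∈ G, σ x = x := fun x hx =>
      (IntermediateField.mem_fixedField_iff _ _).1 hx σ (Subgroup.mem_zpowers σ)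
    have hG' : ∀ x, σ x = x → x ∈ G := by
      intro x hx
      rw [IntermediateField.mem_fixedField_iff]
      rintro _ ⟨n, rfl⟩
      have h4 : σ ∈ MulAction.stabilizer (Gal(AlgebraicClosure K/K)) x := hx
      exact Subgroup.zpow_mem _ h4 n
    have hle : IntermediateField.adjoin K {x} ≤ G := by
      rw [IntermediateField.adjoin_le_iff]
      rintro _ rfl
      exact hG' _ hx
    have h1 := hτ ⟨IntermediateField.adjoin K {x}, hfd, fun y hy => hG y (hle hy)⟩
    rw [Set.mem_iInter] at h1
    exact h1 ⟨x, IntermediateField.mem_adjoin_simple_self K x⟩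

/-- **Step 2.** The conjugation on the algebraic closure. -/
theorem exists_conj (ι : AlgebraicClosure K →+* ℂ)
    (hK : ∀ k : K, conj (ι (algebraMap K _ k)) = ι (algebraMap K _ k)) :
    ∃ c : AlgebraicClosure K →ₐ[K] AlgebraicClosure K, ∀ x, ι (c x) = conj (ι x) := by
  let _ : Algebra K ℂ := (ι.comp (algebraMap K (AlgebraicClosure K))).toAlgebra
  let ι' : AlgebraicClosure K →ₐ[K] ℂ := { ι with commutes' := fun k => rfl }
  let cι : AlgebraicClosure K →ₐ[K] ℂ :=
    { (starRingEnd ℂ).comp ι with
      commutes' := fun k => hK k }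
  have hex : ∀ x, ∃ y, ι y = conj (ι x) := by
    intro x
    have hfd : FiniteDimensional K (IntermediateField.adjoin K {x}) :=
      IntermediateField.adjoin.finiteDimensional (Algebra.IsIntegral.isIntegral x)
    obtain ⟨i, hi⟩ := factor (K := K) ι' (cι.comp (IntermediateField.adjoin K {x}).val)
    refine ⟨i ⟨x, IntermediateField.mem_adjoin_simple_self K x⟩, ?_⟩
    exact DFunLike.congr_fun hi ⟨x, IntermediateField.mem_adjoin_simple_self K x⟩
  choose c hc using hex
  refine ⟨{ toFun := c, map_one' := ?_, map_mul' := ?_, map_zero' := ?_, map_add' := ?_,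
            commutes' := ?_ }, hc⟩
  · apply ι.injective
    rw [hc, map_one, map_one]
  · intro x y
    apply ι.injective
    rw [hc, map_mul, map_mul, map_mul, hc, hc]
  · apply ι.injective
    rw [hc, map_zero, map_zero]
  · intro x y
    apply ι.injective
    rw [hc, map_add, map_add, map_add, hc, hc]
  · intro k
    apply ι.injective
    rw [hc, hK]

/-- **Step 3.** An automorphism fixing the field fixed by `σ` commutes with `σ`. -/
theorem commute_of_fix (σ : Gal(AlgebraicClosure K/K))
    (c : AlgebraicClosure K →ₐ[K] AlgebraicClosure K) (hc : ∀ x, σ x = x → c x = x)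
    (x : AlgebraicClosure K) : c (σ x) = σ (c x) := by
  let c' : Gal(AlgebraicClosure K/K) := AlgEquiv.ofBijective c
    (AlgHom.normal_bijective K (AlgebraicClosure K) (AlgebraicClosure K) c)
  let N : IntermediateField K (AlgebraicClosure K) :=
    IntermediateField.normalClosure K (IntermediateField.adjoin K {x}) (AlgebraicClosure K)
  have hfd : FiniteDimensional K (IntermediateField.adjoin K {x}) :=
    IntermediateField.adjoin.finiteDimensional (Algebra.IsIntegral.isIntegral x)
  have hN : Normal K N := inferInstance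
  have hfdN : FiniteDimensional K N := inferInstance
  have hgal : IsGalois K N := {}
  have hxN : x ∈ N := IntermediateField.le_normalClosure _
    (IntermediateField.mem_adjoin_simple_self K x)
  have hres : ∀ (τ : Gal(AlgebraicClosure K/K)) (y : N),
      ((AlgEquiv.restrictNormal τ N y : N) : AlgebraicClosure K) = τ y :=
    fun τ y => AlgEquiv.restrictNormal_commutes τ N y
  have h1 : AlgEquiv.restrictNormal c' N ∈ Subgroup.zpowers (AlgEquiv.restrictNormal σ N) := by
    rw [← IntermediateField.fixingSubgroup_fixedField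
      (Subgroup.zpowers (AlgEquiv.restrictNormal σ N))]
    rw [IntermediateField.mem_fixingSubgroup_iff]
    intro y hy
    have h2 : (AlgEquiv.restrictNormal σ N) y = y :=
      (IntermediateField.mem_fixedField_iff _ _).1 hy _ (Subgroup.mem_zpowers _)
    apply Subtype.ext
    rw [hres]
    refine hc y ?_
    rw [← hres, h2]
  obtain ⟨n, hn⟩ := h1
  have h3 : AlgEquiv.restrictNormal c' N * AlgEquiv.restrictNormal σ N =
      AlgEquiv.restrictNormal σ N * AlgEquiv.restrictNormal c' N := by
    rw [← hn]
    exact (Commute.refl _).zpow_left n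
  have h4 := congrArg (fun g : Gal(N/K) => ((g ⟨x, hxN⟩ : N) : AlgebraicClosure K)) h3
  simp only [AlgEquiv.mul_apply, hres] at h4
  exact h4

theorem real_eq {a : ℂ} (h : conj a = a) : ((a.re : ℝ) : ℂ) = a := Complex.conj_eq_iff_re.1 h

/-- real numbers with a square root in the image -/
theorem sqrt_real {ι : AlgebraicClosure K →+* ℂ} {y : AlgebraicClosure K} {r : ℝ} (hr : 0 < r)
    (h : ι y ^ 2 = (r : ℂ)) : conj (ι y) = ι y := by
  have h1 : ι y ^ 2 = ((Real.sqrt r : ℝ) : ℂ) ^ 2 := by
    rw [h, ← Complex.ofReal_pow, Real.sq_sqrt hr.le]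
  rcases sq_eq_sq_iff_eq_or_eq_neg.1 h1 with h2 | h2
  · rw [h2, Complex.conj_ofReal]
  · rw [h2, map_neg, Complex.conj_ofReal]

/-- **Step 4.** `σ` is trivial on the real elements. -/
theorem fix_real (σ : Gal(AlgebraicClosure K/K)) (ι : AlgebraicClosure K →+* ℂ)
    (c : AlgebraicClosure K →ₐ[K] AlgebraicClosure K) (hcι : ∀ x, ι (c x) = conj (ι x))
    (hcomm : ∀ x, c (σ x) = σ (c x)) (x : AlgebraicClosure K) (hx : conj (ι x) = ι x) :
    σ x = x := by
  have hcx : ∀ y, conj (ι y) = ι y → c y = y := fun y hy => ι.injective (by rw [hcι, hy])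
  have hreal : ∀ y, conj (ι y) = ι y → conj (ι (σ y)) = ι (σ y) := by
    intro y hy
    rw [← hcι, hcomm, hcx y hy]
  -- no negative squares of real numbers
  have hneg : ∀ y, conj (ι y) = ι y → ∀ r : ℝ, ι (σ y) ^ 2 = (r : ℂ) → 0 ≤ r := by
    intro y hy r hr
    rw [← real_eq (hreal y hy), ← Complex.ofReal_pow] at hr
    have h1 := Complex.ofReal_injective hr
    rw [← h1]
    positivity
  by_contra hne
  have h1 : (ι x).re ≠ (ι (σ x)).re := by
    intro h
    apply hne
    apply ι.injective
    rw [← real_eq hx, ← real_eq (hreal x hx), h]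
  rcases lt_or_gt_of_ne h1 with h2 | h2
  · obtain ⟨q, hq1, hq2⟩ := exists_rat_btwn h2
    obtain ⟨y, hy⟩ := IsAlgClosed.exists_pow_nat_eq ((q : AlgebraicClosure K) - x)
      (n := 2) (by norm_num)
    have h3 : ι y ^ 2 = (((q : ℝ) - (ι x).re : ℝ) : ℂ) := by
      rw [← map_pow, hy, map_sub, map_ratCast, Complex.ofReal_sub, real_eq hx, Complex.ofReal_ratCast]
    have h4 := sqrt_real (sub_pos.2 hq1) h3
    have h5 : ι (σ y) ^ 2 = (((q : ℝ) - (ι (σ x)).re : ℝ) : ℂ) := by
      rw [← map_pow, ← map_pow, hy, map_sub, map_sub, map_ratCast, map_ratCast,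
        Complex.ofReal_sub, real_eq (hreal x hx), Complex.ofReal_ratCast]
    have h6 := hneg y h4 _ h5
    linarith
  · obtain ⟨q, hq1, hq2⟩ := exists_rat_btwn h2
    obtain ⟨y, hy⟩ := IsAlgClosed.exists_pow_nat_eq (x - (q : AlgebraicClosure K))
      (n := 2) (by norm_num)
    have h3 : ι y ^ 2 = (((ι x).re - (q : ℝ) : ℝ) : ℂ) := by
      rw [← map_pow, hy, map_sub, map_ratCast, Complex.ofReal_sub, real_eq hx, Complex.ofReal_ratCast]
    have h4 := sqrt_real (sub_pos.2 hq2) h3
    have h5 : ι (σ y) ^ 2 = (((ι (σ x)).re - (q : ℝ) : ℝ) : ℂ) := by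
      rw [← map_pow, ← map_pow, hy, map_sub, map_sub, map_ratCast, map_ratCast,
        Complex.ofReal_sub, real_eq (hreal x hx), Complex.ofReal_ratCast]
    have h6 := hneg y h4 _ h5
    linarith

/-- **The criterion.** An automorphism such that all number fields fixed by it have a real place is a
complex conjugation. -/
theorem isCC_of_real (σ : Gal(AlgebraicClosure K/K))
    (h : ∀ F : IntermediateField K (AlgebraicClosure K), FiniteDimensional K F →
      (∀ x ∈ F, σ x = x) → Nonempty (F →+* ℝ)) : IsCC σ := by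
  obtain ⟨ι, hK, hι⟩ := exists_real σ h
  obtain ⟨c, hc⟩ := exists_conj ι hK
  have hcf : ∀ x, σ x = x → c x = x := fun x hx => ι.injective (by rw [hc, hι x hx])
  have hcomm := commute_of_fix σ c hcf
  have hfix := fix_real σ ι c hc hcomm
  refine ⟨ι, ?_⟩
  obtain ⟨i, hi⟩ := IsAlgClosed.exists_pow_nat_eq (-1 : AlgebraicClosure K) (n := 2) (by norm_num)
  have hιi : ι i ^ 2 = -1 := by rw [← map_pow, hi, map_neg, map_one]
  have hI : ι i = Complex.I ∨ ι i = -Complex.I := by
    have : ι i ^ 2 = Complex.I ^ 2 := by rw [hιi, Complex.I_sq]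
    exact sq_eq_sq_iff_eq_or_eq_neg.1 this
  have hci : c i = -i := by
    apply ι.injective
    rw [hc, map_neg]
    rcases hI with h1 | h1
    · rw [h1, Complex.conj_I]
    · rw [h1, map_neg, Complex.conj_I]
  have hσi : σ i = -i := by
    have h1 : (σ i) ^ 2 = i ^ 2 := by rw [← map_pow, hi, map_neg, map_one]
    rcases sq_eq_sq_iff_eq_or_eq_neg.1 h1 with h2 | h2
    · exfalso
      have h3 := hcf i h2
      rw [hci] at h3
      have h4 : i = 0 := by
        have h5 : (2 : AlgebraicClosure K) * i = 0 := by linear_combination -h3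
        exact (mul_eq_zero.1 h5).resolve_left two_ne_zero
      rw [h4] at hi
      norm_num at hi
    · exact h2
  have hi0 : i ≠ 0 := by
    rintro rfl
    norm_num at hi
  have hcc : ∀ x, c (c x) = x := fun x => ι.injective (by rw [hc, hc, Complex.conj_conj])
  intro x
  rw [← hc]
  congr 1
  -- the real and the imaginary part
  have hu : conj (ι (x + c x)) = ι (x + c x) := by
    rw [← hc, map_add, hcc, add_comm]
  have hv : conj (ι ((x - c x) * i)) = ι ((x - c x) * i) := by
    rw [← hc, map_mul, map_sub, hcc, hci]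
    congr 1
    ring
  have h1 := hfix _ hu
  have h2 := hfix _ hv
  rw [map_add] at h1
  rw [map_mul, map_sub, hσi] at h2
  have h3 : σ x - σ (c x) = -(x - c x) := by
    have h4 : (σ x - σ (c x) + (x - c x)) * i = 0 := by linear_combination -h2
    have h5 := (mul_eq_zero.1 h4).resolve_right hi0
    linear_combination h5
  have h4 : (2 : AlgebraicClosure K) * σ x = 2 * c x := by linear_combination h1 + h3
  exact mul_left_cancel₀ two_ne_zero h4

/-- **The fixed embeddings are the real places.** -/
theorem card_fixed_of_isCC {σ : Gal(AlgebraicClosure K/K)} (hσ : IsCC σ) :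
    ∃ ρ : K →+* ℝ, ∀ (F : Type) [Field F] [NumberField F] [Algebra K F],
      Nat.card {i : F →ₐ[K] AlgebraicClosure K //
        (σ : AlgebraicClosure K →ₐ[K] AlgebraicClosure K).comp i = i} =
      Nat.card {j : F →+* ℝ // j.comp (algebraMap K F) = ρ} := by
  obtain ⟨ι, hι⟩ := hσ
  have hreal : ComplexEmbedding.IsReal (ι.comp (algebraMap K (AlgebraicClosure K))) := by
    rw [ComplexEmbedding.isReal_iff]
    ext k
    change conj (ι (algebraMap K _ k)) = ι (algebraMap K _ k)
    rw [← hι, σ.commutes]
  refine ⟨hreal.embedding, fun F _ _ _ => ?_⟩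
  let _ : Algebra K ℂ := (ι.comp (algebraMap K (AlgebraicClosure K))).toAlgebra
  let ι' : AlgebraicClosure K →ₐ[K] ℂ := { ι with commutes' := fun k => rfl }
  have hfd : FiniteDimensional K F := Module.Finite.of_restrictScalars_finite ℚ K F
  have hρ : ∀ k : K, ((hreal.embedding k : ℝ) : ℂ) = ι (algebraMap K _ k) := fun k =>
    ComplexEmbedding.IsReal.coe_embedding_apply hreal k
  have hr : ∀ i : {i : F →ₐ[K] AlgebraicClosure K //
      (σ : AlgebraicClosure K →ₐ[K] AlgebraicClosure K).comp i = i},
      ComplexEmbedding.IsReal (ι.comp (i.1 : F →+* AlgebraicClosure K)) := by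
    intro i
    rw [ComplexEmbedding.isReal_iff]
    ext x
    change conj (ι (i.1 x)) = ι (i.1 x)
    rw [← hι]
    congr 1
    exact DFunLike.congr_fun i.2 x
  refine Nat.card_eq_of_bijective (fun i => ⟨(hr i).embedding, ?_⟩) ⟨?_, ?_⟩
  · ext k
    apply Complex.ofReal_injective
    rw [hρ]
    change (((hr i).embedding (algebraMap K F k) : ℝ) : ℂ) = _
    rw [ComplexEmbedding.IsReal.coe_embedding_apply]
    change ι (i.1 (algebraMap K F k)) = _
    rw [i.1.commutes]
  · intro i i' h
    apply Subtype.ext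
    apply AlgHom.ext
    intro x
    apply ι.injective
    have h1 := congrArg (fun j : {j : F →+* ℝ // j.comp (algebraMap K F) = hreal.embedding} =>
      ((j.1 x : ℝ) : ℂ)) h
    simp only [ComplexEmbedding.IsReal.coe_embedding_apply] at h1
    exact h1
  · rintro ⟨j, hj⟩
    let j' : F →ₐ[K] ℂ :=
      { Complex.ofRealHom.comp j with
        commutes' := fun k => by
          change ((j (algebraMap K F k) : ℝ) : ℂ) = ι (algebraMap K _ k)
          rw [← hρ, ← hj]
          rfl }
    obtain ⟨i, hi⟩ := factor (K := K) ι' j'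
    have hi' : ∀ x, ι (i x) = ((j x : ℝ) : ℂ) := fun x => DFunLike.congr_fun hi x
    refine ⟨⟨i, ?_⟩, ?_⟩
    · apply AlgHom.ext
      intro x
      apply ι.injective
      change ι (σ (i x)) = ι (i x)
      rw [hι, hi', Complex.conj_ofReal]
    · apply Subtype.ext
      ext x
      apply Complex.ofReal_injective
      change (((hr _).embedding x : ℝ) : ℂ) = _
      rw [ComplexEmbedding.IsReal.coe_embedding_apply]
      exact hi' x

end

end Pool.Agent.Q246.RP
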