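import Pool.Agent.Q5.HR.Artin

/-! Artin's induction theorem for integral class functions supported on a family of cyclic subgroups. -/

set_option autoImplicit false
set_option linter.unusedSectionVars false

namespace Pool.Agent.Q246.RP

open Pool.Agent.Q5.HR
open scoped Classical

section
variable {G : Type} [Group G] [Finite G]

/-- `φ` is a combination of the functions `fix B`, `B ∈ 𝒮` -/
def CombS (fix : Subgroup G → G → ℤ) [Fintype (Subgroup G)] (𝒮 : Set (Subgroup G))
    (φ : G → ℤ) : Prop :=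
  ∃ n : Subgroup G → ℤ, (∀ B, n B ≠ 0 → B ∈ 𝒮) ∧ ∀ g, φ g = ∑ B, n B * fix B g

variable {fix : Subgroup G → G → ℤ} [Fintype (Subgroup G)] {𝒮 : Set (Subgroup G)}

theorem CombS.zero : CombS fix 𝒮 (fun _ => 0) :=
  ⟨fun _ => 0, fun _ h => absurd rfl h, fun g => by simp⟩

theorem CombS.add {φ ψ : G → ℤ} (h1 : CombS fix 𝒮 φ) (h2 : CombS fix 𝒮 ψ) :
    CombS fix 𝒮 (fun g => φ g + ψ g) := by
  obtain ⟨n, hn, hn'⟩ := h1
  obtain ⟨k, hk, hk'⟩ := h2
  refine ⟨fun B => n B + k B, fun B hB => ?_, fun g => ?_⟩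
  · by_cases h : n B = 0
    · refine hk B fun h' => hB ?_
      change n B + k B = 0
      rw [h, h', add_zero]
    · exact hn B h
  · change φ g + ψ g = _
    rw [hn', hk', ← Finset.sum_add_distrib]
    exact Finset.sum_congr rfl fun B _ => by ring

theorem CombS.smul {φ : G → ℤ} (h1 : CombS fix 𝒮 φ) (c : ℤ) :
    CombS fix 𝒮 (fun g => c * φ g) := by
  obtain ⟨n, hn, hn'⟩ := h1
  refine ⟨fun B => c * n B, fun B hB => hn B fun h => hB ?_, fun g => ?_⟩
  · change c * n B = 0
    rw [h, mul_zero]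
  · change c * φ g = _
    rw [hn', Finset.mul_sum]
    exact Finset.sum_congr rfl fun B _ => by ring

theorem CombS.sum {ι : Type} (s : Finset ι) {φ : ι → G → ℤ} (h : ∀ i ∈ s, CombS fix 𝒮 (φ i)) :
    CombS fix 𝒮 (fun g => ∑ i ∈ s, φ i g) := by
  induction s using Finset.induction_on with
  | empty => simpa using CombS.zero
  | insert a s ha ih =>
    simp only [Finset.sum_insert ha]
    exact (h a (Finset.mem_insert_self a s)).add
      (ih fun i hi => h i (Finset.mem_insert_of_mem hi))

theorem combS_self {C : Subgroup G} (hC : C ∈ 𝒮) : CombS fix 𝒮 (fix C) := by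
  refine ⟨fun B => if B = C then 1 else 0, fun B hB => ?_, fun g => ?_⟩
  · by_cases h : B = C
    · rw [h]; exact hC
    · exact absurd (if_neg h) hB
  · simp

theorem combS_th (hdown : ∀ C ∈ 𝒮, ∀ B ≤ C, B ∈ 𝒮)
    (hfix : ∀ (B : Subgroup G) (g : G), (Nat.card B : ℤ) * fix B g = cj B g) (N : ℕ) :
    ∀ C : Subgroup G, C ∈ 𝒮 → Nat.card C = N → CombS fix 𝒮 (fun g => (th C g : ℤ)) := by
  induction N using Nat.strong_induction_on with
  | _ N ih =>
    intro C hCS hCN
    have h1 : (fun g => (th C g : ℤ)) = fun g => (Nat.card C : ℤ) * fix C g +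
        (-1) * ∑ B ∈ Finset.univ.filter (fun B : Subgroup G => B < C), (th B g : ℤ) := by
      funext g
      have h2 := cj_eq C g
      have h3 : Finset.univ.filter (fun B : Subgroup G => B ≤ C) =
          insert C (Finset.univ.filter (fun B : Subgroup G => B < C)) := by
        ext B
        simp only [Finset.mem_filter, Finset.mem_univ, true_and, Finset.mem_insert]
        exact le_iff_eq_or_lt
      rw [h3, Finset.sum_insert (by simp)] at h2
      rw [hfix, h2]
      push_cast
      ring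
    rw [h1]
    refine ((combS_self hCS).smul _).add (CombS.smul (CombS.sum _ fun B hB => ?_) _)
    have hlt : B < C := (Finset.mem_filter.1 hB).2
    refine ih (Nat.card B) ?_ B (hdown C hCS B hlt.le) rfl
    rw [← hCN]
    refine lt_of_le_of_ne (Subgroup.card_le_of_le hlt.le) fun h => ?_
    exact hlt.ne (Subgroup.eq_of_le_of_card_ge hlt.le h.ge)

/-- **Artin's theorem** for class functions supported on a family of cyclic subgroups. -/
theorem artinS (hdown : ∀ C ∈ 𝒮, ∀ B ≤ C, B ∈ 𝒮)
    (hfix : ∀ (B : Subgroup G) (g : G), (Nat.card B : ℤ) * fix B g = cj B g)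
    (φ : G → ℤ)
    (hφ : ∀ g h x : G, Subgroup.zpowers (x⁻¹ * g * x) = Subgroup.zpowers h → φ g = φ h)
    (hS : ∀ g, φ g ≠ 0 → Subgroup.zpowers g ∈ 𝒮) :
    ∃ n : Subgroup G → ℤ, (∀ B, n B ≠ 0 → B ∈ 𝒮) ∧
      ∀ g, ∑ B, n B * fix B g = Nat.card G * φ g := by
  let ψ : Subgroup G → ℤ := fun C => if h : ∃ h, C = Subgroup.zpowers h then φ h.choose else 0
  have hψ : ∀ C : Subgroup G, CombS fix 𝒮 (fun g => ψ C * (th C g : ℤ)) := by
    intro C
    by_cases h0 : ψ C = 0
    · have : (fun g => ψ C * (th C g : ℤ)) = fun _ => 0 := by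
        funext g
        rw [h0, zero_mul]
      rw [this]
      exact CombS.zero
    · by_cases h : ∃ h, C = Subgroup.zpowers h
      · have h1 : ψ C = φ h.choose := dif_pos h
        refine (combS_th hdown hfix _ C ?_ rfl).smul _
        rw [h1] at h0
        have h2 := hS _ h0
        rwa [← h.choose_spec] at h2
      · exact absurd (dif_neg h) h0
  obtain ⟨n, hn, hn'⟩ := CombS.sum (fix := fix) (𝒮 := 𝒮) (Finset.univ : Finset (Subgroup G))
    (φ := fun C g => ψ C * (th C g : ℤ)) (fun C _ => hψ C)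
  refine ⟨n, hn, fun g => ?_⟩
  rw [← hn' g]
  have h1 : ∀ C : Subgroup G, ψ C * (th C g : ℤ) = φ g * (th C g : ℤ) := by
    intro C
    by_cases h0 : th C g = 0
    · rw [h0]; simp
    · have h2 : Nonempty {x : G // Subgroup.zpowers (x⁻¹ * g * x) = C} := by
        unfold th at h0
        by_contra hne
        rw [not_nonempty_iff] at hne
        exact h0 (Nat.card_of_isEmpty)
      obtain ⟨x, hx⟩ := h2
      have h : ∃ h, C = Subgroup.zpowers h := ⟨_, hx.symm⟩
      have h3 : ψ C = φ h.choose := dif_pos h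
      rw [h3, hφ g h.choose x (by rw [hx]; exact h.choose_spec)]
  change ∑ C, ψ C * (th C g : ℤ) = _
  rw [Finset.sum_congr rfl fun C _ => h1 C, ← Finset.mul_sum, mul_comm]
  congr 1
  have h4 := sum_th g
  exact_mod_cast h4

end

end Pool.Agent.Q246.RP
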