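import Pool.Agent.Q246.RP.Law

/-! Consequences of the law of real places. -/

set_option autoImplicit false
set_option linter.unusedSectionVars false

namespace Pool.Agent.Q246.RP

open NumberField IsDedekindDomain Filter Pool.Agent.H341R2 Pool.Agent.H341R2.EC
  Pool.Agent.H921R2.TatePole Pool.Agent.W353.NF Pool.Agent.W401.Cheb Pool.Agent.Q5.BR
open Pool.Agent.TH322.BC.Edge (MinimalModels)
open scoped Topology Classical

open Pool.Agent.TH322.BC.Edge renaming LSeries → LS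

/-- the identity theorem for orders -/
theorem order_congr {U : Set (Set ℂ)} (hU : IsDomains U) {u u' : Set ℂ} (hu : u ∈ U) (hu' : u' ∈ U)
    {f g : ℂ → ℂ} (hf : MeromorphicOn f u) (hg : MeromorphicOn g u')
    (h : ∀ s : ℂ, 3 / 2 < s.re → f s = g s) :
    meromorphicOrderAt f 1 = meromorphicOrderAt g 1 := by
  obtain ⟨-, hpre, h1, hhalf⟩ := hU.2.1 _ (hU.2.2 _ hu _ hu')
  have hconn : IsConnected (u ∩ u') := ⟨⟨1, h1⟩, hpre⟩
  have hd : MeromorphicOn (fun s => f s - g s) (u ∩ u') := fun s hs =>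
    (hf s hs.1).fun_sub (hg s hs.2)
  have hopen : IsOpen {s : ℂ | 3 / 2 < s.re} := isOpen_lt continuous_const Complex.continuous_re
  have h2 : meromorphicOrderAt (fun s => f s - g s) 2 = ⊤ := by
    rw [meromorphicOrderAt_eq_top_iff]
    have h2' : ({s : ℂ | 3 / 2 < s.re} : Set ℂ) ∈ 𝓝 (2 : ℂ) :=
      hopen.mem_nhds (by change (3 / 2 : ℝ) < (2 : ℂ).re; norm_num)
    filter_upwards [mem_nhdsWithin_of_mem_nhds h2'] with s hs
    rw [h s hs, sub_self]
  have h3 : meromorphicOrderAt (fun s => f s - g s) 1 = ⊤ := by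
    by_contra h4
    have h5 := (hd.exists_meromorphicOrderAt_ne_top_iff_forall hconn).1 ⟨⟨1, h1⟩, h4⟩
    exact h5 ⟨2, hhalf 2 (by norm_num)⟩ h2
  rw [meromorphicOrderAt_eq_top_iff] at h3
  refine meromorphicOrderAt_congr ?_
  filter_upwards [h3] with s hs
  exact sub_eq_zero.1 hs

/-- the number of the real places of `F` above the real place `ρ` of `K` -/
noncomputable def above' {K : Type} [Field K] (ρ : K →+* ℝ) (F : Type) [Field F] [Algebra K F] : ℕ :=
  Nat.card {j : F →+* ℝ // j.comp (algebraMap K F) = ρ}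

section
variable {K : Type} [Field K] [NumberField K]

/-- the combination vanishes at the complex conjugations -/
theorem phi_zero {ι : Type} [Fintype ι] (X : ι → Ext K) (c : ι → ℤ)
    (h : ∀ ρ : K →+* ℝ, ∑ i, c i * (above' ρ (X i).F : ℤ) = 0) (σ : GK K) (hσ : IsCC σ) :
    phi X c σ = 0 := by
  obtain ⟨ρ, hρ⟩ := card_fixed_of_isCC hσ
  rw [← h ρ]
  unfold phi above'
  refine Finset.sum_congr rfl fun i _ => ?_
  rw [← hρ (X i).F]
  rfl

theorem totallyComplex_of_isEmpty {F : Type} [Field F] [NumberField F] (h : IsEmpty (F →+* ℝ)) :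
    IsTotallyComplex F := by
  refine ⟨fun v => ?_⟩
  by_contra hv
  rw [InfinitePlace.not_isComplex_iff_isReal] at hv
  exact h.false (InfinitePlace.embedding_of_isReal hv)

/-- the families of the theorem -/
theorem aWide_family {E : WeierstrassCurve K} (hE : E.IsElliptic) {M : ℕ} (hM : 0 < M) (R : ℕ)
    (hR : R = 0 ∨ (E.c₄ ≠ 0 ∧ E.c₆ ≠ 0)) :
    AWide {F : IntermediateField K (AlgebraicClosure K) | FiniteDimensional K F ∧
      IsEmpty (F →+* ℝ) ∧ M ∣ Module.finrank K F ∧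
      R ≤ Pool.Agent.Q5.BR.rk (E.map (algebraMap K F))} := by
  have h1 := (aWide_complex (K := K)).inter (Pool.Agent.Q5.HR.wide_deg hM)
  rcases hR with rfl | ⟨h4, h6⟩
  · have h2 : {F : IntermediateField K (AlgebraicClosure K) | FiniteDimensional K F ∧
        IsEmpty (F →+* ℝ) ∧ M ∣ Module.finrank K F ∧
        0 ≤ Pool.Agent.Q5.BR.rk (E.map (algebraMap K F))} =
      {F : IntermediateField K (AlgebraicClosure K) |
        FiniteDimensional K F ∧ IsEmpty (F →+* ℝ)} ∩
      {F : IntermediateField K (AlgebraicClosure K) |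
        FiniteDimensional K F ∧ M ∣ Module.finrank K F} := by
      ext F
      simp only [Set.mem_setOf_eq, Set.mem_inter_iff, Nat.zero_le, and_true]
      tauto
    rw [h2]
    exact h1
  · have h2 := h1.inter (Pool.Agent.Q5.HR.wide_rank hE h4 h6 R)
    have h3 : {F : IntermediateField K (AlgebraicClosure K) | FiniteDimensional K F ∧
        IsEmpty (F →+* ℝ) ∧ M ∣ Module.finrank K F ∧
        R ≤ Pool.Agent.Q5.BR.rk (E.map (algebraMap K F))} =
      ({F : IntermediateField K (AlgebraicClosure K) |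
        FiniteDimensional K F ∧ IsEmpty (F →+* ℝ)} ∩
      {F : IntermediateField K (AlgebraicClosure K) |
        FiniteDimensional K F ∧ M ∣ Module.finrank K F}) ∩
      {F : IntermediateField K (AlgebraicClosure K) | FiniteDimensional K F ∧
        R ≤ Pool.Agent.Q5.BR.rk (E.map (algebraMap K F))} := by
      ext F
      simp only [Set.mem_setOf_eq, Set.mem_inter_iff]
      tauto
    rw [h3]
    exact h2

/-- **The law, general form.** -/
theorem law_of_fields {U : Set (Set ℂ)} (hU : IsDomains U) {E : WeierstrassCurve K}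
    (hE : E.IsElliptic) {M : ℕ} (hM : 0 < M) (R : ℕ) (hR : R = 0 ∨ (E.c₄ ≠ 0 ∧ E.c₆ ≠ 0))
    (h : ∀ (F : Type) [Field F] [NumberField F] [Algebra K F], IsTotallyComplex F →
      M ∣ Module.finrank K F → R ≤ Pool.Agent.Q5.BR.rk (E.map (algebraMap K F)) →
      AllB U (E.map (algebraMap K F)) 1 (Pool.Agent.Q5.BR.rk (E.map (algebraMap K F))))
    {ι : Type} [Fintype ι] (X : ι → Ext K) (c : ι → ℤ)
    (hc : ∀ ρ : K →+* ℝ, ∑ i, c i * (above' ρ (X i).F : ℤ) = 0) :
    ∃ m : ℕ, 0 < m ∧ ProdB U X E (fun i => (m : ℤ) * c i)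
      ((m : ℤ) * ∑ i, c i * (Pool.Agent.Q5.BR.rk (E.map (algebraMap K (X i).F)) : ℤ)) :=
  prod_law hU hE (aWide_family hE hM R hR) (fun F hF _ => h F (totallyComplex_of_isEmpty hF.2.1)
    hF.2.2.1 hF.2.2.2) X c (phi_zero X c hc)

/-- the orders -/
theorem orders_of_prodB {U : Set (Set ℂ)} (hU : IsDomains U) {E : WeierstrassCurve K}
    (hE : E.IsElliptic) {ι : Type} [Fintype ι] {X : ι → Ext K} {c : ι → ℤ} {m : ℕ} (hm : 0 < m)
    (h : ProdB U X E (fun i => (m : ℤ) * c i)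
      ((m : ℤ) * ∑ i, c i * (Pool.Agent.Q5.BR.rk (E.map (algebraMap K (X i).F)) : ℤ)))
    (r : ι → ℤ) (hr : ∀ i, AllB U (E.map (algebraMap K (X i).F)) 1 (r i)) :
    ∑ i, c i * ((Pool.Agent.Q5.BR.rk (E.map (algebraMap K (X i).F)) : ℤ) - r i) = 0 := by
  have hEj : ∀ i, (E.map (algebraMap K (X i).F)).IsElliptic := fun i => inferInstance
  choose V hV using fun i => exists_minimalModels (E.map (algebraMap K (X i).F)) (hEj i)
  obtain ⟨u, hu, f, hf, hf', hf''⟩ := h V hV
  choose v hv g hg hg' hg'' using fun i => hr i (V i) (hV i)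
  obtain ⟨u₀, hu₀, hsub⟩ := hU.inter_fin hv
  have h1 := (hU.2.1 u₀ hu₀).2.2.1
  have h2 : meromorphicOrderAt f 1 =
      meromorphicOrderAt (fun s => ∏ i, (g i s) ^ ((m : ℤ) * c i)) 1 := by
    refine order_congr hU hu hu₀ hf (fun s hs => MeromorphicAt.fun_prod fun i _ =>
      MeromorphicAt.fun_zpow (hg i s (hsub i hs)) _) fun s hs => ?_
    rw [hf' s hs]
    refine Finset.prod_congr rfl fun i _ => ?_
    rw [hg' i s hs, zpow_one]
  have hm' : ∀ i, MeromorphicAt (g i) 1 := fun i => hg i 1 (hsub i h1)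
  have h4 : meromorphicOrderAt (fun s => ∏ i, (g i s) ^ ((m : ℤ) * c i)) 1 =
      ∑ i, meromorphicOrderAt (fun s => (g i s) ^ ((m : ℤ) * c i)) 1 := by
    rw [← meromorphicOrderAt_prod fun i _ => (hm' i).fun_zpow _]
    congr 1
    ext s
    rw [Finset.prod_apply]
  have h5 : ∀ i, meromorphicOrderAt (fun s => (g i s) ^ ((m : ℤ) * c i)) 1 =
      (((m : ℤ) * c i * r i : ℤ) : WithTop ℤ) := by
    intro i
    rw [fun_meromorphicOrderAt_zpow (hm' i), hg'' i]
    rfl
  rw [hf'', h4, Finset.sum_congr rfl fun i _ => h5 i, ← WithTop.coe_sum] at h2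
  have h6 : (m : ℤ) * ∑ i, c i * (Pool.Agent.Q5.BR.rk (E.map (algebraMap K (X i).F)) : ℤ) =
      ∑ i, (m : ℤ) * c i * r i := WithTop.coe_injective h2
  have hm0 : (m : ℤ) ≠ 0 := by exact_mod_cast hm.ne'
  refine (mul_eq_zero.1 (?_ : (m : ℤ) * _ = 0)).resolve_left hm0
  rw [Finset.mul_sum] at h6 ⊢
  rw [← sub_eq_zero, ← Finset.sum_sub_distrib] at h6
  rw [← h6]
  exact Finset.sum_congr rfl fun i _ => by ring

end

section
variable {F : Type} [Field F] [NumberField F]

theorem above_rat (ρ : ℚ →+* ℝ) : above' ρ F = InfinitePlace.nrRealPlaces F := by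
  unfold above'
  rw [← InfinitePlace.card_real_embeddings, ← Nat.card_eq_fintype_card]
  refine Nat.card_eq_of_bijective (fun j => ⟨Complex.ofRealHom.comp j.1, ?_⟩) ⟨?_, ?_⟩
  · rw [ComplexEmbedding.isReal_iff]
    ext x
    exact Complex.conj_ofReal _
  · intro j j' h
    apply Subtype.ext
    ext x
    apply Complex.ofReal_injective
    exact DFunLike.congr_fun (congrArg Subtype.val h) x
  · rintro ⟨φ, hφ⟩
    refine ⟨⟨hφ.embedding, Subsingleton.elim _ _⟩, ?_⟩
    apply Subtype.ext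
    ext x
    exact ComplexEmbedding.IsReal.coe_embedding_apply hφ x

end

/-- the two fields -/
def pairX (F F₀ : Type) [Field F] [NumberField F] [Field F₀] [NumberField F₀] : Bool → Ext ℚ :=
  fun b => if b then Ext.mk F else Ext.mk F₀

/-- **Two fields.** -/
theorem two_fields {U : Set (Set ℂ)} (hU : IsDomains U) {E : WeierstrassCurve ℚ}
    (hE : E.IsElliptic) {M : ℕ} (hM : 0 < M) (R : ℕ) (hR : R = 0 ∨ (E.c₄ ≠ 0 ∧ E.c₆ ≠ 0))
    (h : ∀ (F : Type) [Field F] [NumberField F], IsTotallyComplex F →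
      M ∣ Module.finrank ℚ F → R ≤ Pool.Agent.Q5.BR.rk (E.map (algebraMap ℚ F)) →
      AllB U (E.map (algebraMap ℚ F)) 1 (Pool.Agent.Q5.BR.rk (E.map (algebraMap ℚ F))))
    (F F₀ : Type) [Field F] [NumberField F] [Field F₀] [NumberField F₀] :
    ∃ m : ℕ, 0 < m ∧ ∀ V V₀, MinimalModels (E.map (algebraMap ℚ F)) V →
      MinimalModels (E.map (algebraMap ℚ F₀)) V₀ →
      ∃ u ∈ U, ∃ f : ℂ → ℂ, MeromorphicOn f u ∧
        (∀ s : ℂ, 3 / 2 < s.re → f s =
          (LS V s) ^ ((m : ℤ) * InfinitePlace.nrRealPlaces F₀) *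
          (LS V₀ s) ^ (-((m : ℤ) * InfinitePlace.nrRealPlaces F))) ∧
        meromorphicOrderAt f 1 = (((m : ℤ) *
          (InfinitePlace.nrRealPlaces F₀ * Pool.Agent.Q5.BR.rk (E.map (algebraMap ℚ F)) -
           InfinitePlace.nrRealPlaces F * Pool.Agent.Q5.BR.rk (E.map (algebraMap ℚ F₀))) : ℤ) :
            WithTop ℤ) := by
  obtain ⟨m, hm, hprod⟩ := law_of_fields hU hE hM R hR (fun F _ _ aF h1 h2 h3 => by
      have : aF = DivisionRing.toRatAlgebra := Subsingleton.elim _ _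
      subst this
      exact h F h1 h2 h3) (pairX F F₀)
    (fun b => if b then (InfinitePlace.nrRealPlaces F₀ : ℤ) else -(InfinitePlace.nrRealPlaces F : ℤ))
    (fun ρ => by
      rw [Fintype.sum_bool]
      change (InfinitePlace.nrRealPlaces F₀ : ℤ) * (above' ρ F : ℤ) +
        (-(InfinitePlace.nrRealPlaces F : ℤ)) * (above' ρ F₀ : ℤ) = 0
      rw [above_rat, above_rat]
      ring)
  refine ⟨m, hm, fun V V₀ hV hV₀ => ?_⟩
  obtain ⟨u, hu, f, hf, hf', hf''⟩ := hprod (fun b => match b with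
    | true => V
    | false => V₀) (fun b => match b with
    | true => hV
    | false => hV₀)
  refine ⟨u, hu, f, hf, fun s hs => ?_, ?_⟩
  · rw [hf' s hs, Fintype.prod_bool]
    change (LS V s) ^ ((m : ℤ) * (InfinitePlace.nrRealPlaces F₀ : ℤ)) *
      (LS V₀ s) ^ ((m : ℤ) * (-(InfinitePlace.nrRealPlaces F : ℤ))) = _
    rw [mul_neg]
  · rw [hf'', Fintype.sum_bool]
    change (((m : ℤ) * ((InfinitePlace.nrRealPlaces F₀ : ℤ) *
      (Pool.Agent.Q5.BR.rk (E.map (algebraMap ℚ F)) : ℤ) +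
      (-(InfinitePlace.nrRealPlaces F : ℤ)) * (Pool.Agent.Q5.BR.rk (E.map (algebraMap ℚ F₀)) : ℤ)) :
        ℤ) : WithTop ℤ) = _
    congr 1
    ring

end Pool.Agent.Q246.RP
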