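import Pool.Agent.Q246.RP.Fin

/-! One field for each real place decides. -/

set_option autoImplicit false
set_option linter.unusedSectionVars false

namespace Pool.Agent.Q246.RP

open NumberField IsDedekindDomain Filter Pool.Agent.H341R2 Pool.Agent.H341R2.EC
  Pool.Agent.H921R2.TatePole Pool.Agent.W353.NF Pool.Agent.W401.Cheb Pool.Agent.Q5.BR
open Pool.Agent.TH322.BC.Edge (MinimalModels)
open scoped Topology Classical

open Pool.Agent.TH322.BC.Edge renaming LSeries → LS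

section
variable {K : Type} [Field K] [NumberField K]

/-- **One field for each real place decides.** -/
theorem power_of_tests {U : Set (Set ℂ)} (hU : IsDomains U) {E : WeierstrassCurve K}
    (hE : E.IsElliptic) {M : ℕ} (hM : 0 < M) (R : ℕ) (hR : R = 0 ∨ (E.c₄ ≠ 0 ∧ E.c₆ ≠ 0))
    (h : ∀ (F : Type) [Field F] [NumberField F] [Algebra K F], IsTotallyComplex F →
      M ∣ Module.finrank K F → R ≤ Pool.Agent.Q5.BR.rk (E.map (algebraMap K F)) →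
      AllB U (E.map (algebraMap K F)) 1 (Pool.Agent.Q5.BR.rk (E.map (algebraMap K F))))
    (F₀ : (K →+* ℝ) → Ext K) (hpos : ∀ ρ, 0 < above' ρ (F₀ ρ).F)
    (hzero : ∀ ρ ρ', ρ' ≠ ρ → above' ρ' (F₀ ρ).F = 0)
    (h₀ : ∀ ρ, AllB U (E.map (algebraMap K (F₀ ρ).F)) 1
      (Pool.Agent.Q5.BR.rk (E.map (algebraMap K (F₀ ρ).F))))
    (F : Type) [Field F] [NumberField F] [Algebra K F] :
    ∃ t : ℕ, 0 < t ∧ AllB U (E.map (algebraMap K F)) (t : ℤ)
      ((t : ℤ) * Pool.Agent.Q5.BR.rk (E.map (algebraMap K F))) := by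
  have hfin : Finite (K →+* ℝ) := inferInstance
  have : Fintype (K →+* ℝ) := Fintype.ofFinite _
  let X : Option (K →+* ℝ) → Ext K := fun o => o.elim (Ext.mk F) F₀
  let N : ℕ := ∏ ρ, above' ρ (F₀ ρ).F
  have hN : 0 < N := Finset.prod_pos fun ρ _ => hpos ρ
  let e : (K →+* ℝ) → ℤ := fun ρ =>
    -(((∏ ρ' ∈ Finset.univ.erase ρ, above' ρ' (F₀ ρ').F : ℕ) : ℤ) * (above' ρ F : ℤ))
  let c : Option (K →+* ℝ) → ℤ := fun o => o.elim (N : ℤ) e
  have hc : ∀ ρ : K →+* ℝ, ∑ i, c i * (above' ρ (X i).F : ℤ) = 0 := by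
    intro ρ
    rw [Fintype.sum_option]
    change (N : ℤ) * (above' ρ F : ℤ) + ∑ ρ', e ρ' * (above' ρ (F₀ ρ').F : ℤ) = 0
    rw [Finset.sum_eq_single ρ]
    · have h1 : (N : ℤ) = ((∏ ρ' ∈ Finset.univ.erase ρ, above' ρ' (F₀ ρ').F : ℕ) : ℤ) *
          (above' ρ (F₀ ρ).F : ℤ) := by
        rw [← Nat.cast_mul]
        congr 1
        rw [mul_comm]
        exact (Finset.mul_prod_erase Finset.univ (fun ρ => above' ρ (F₀ ρ).F)
          (Finset.mem_univ ρ)).symm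
      change (N : ℤ) * (above' ρ F : ℤ) +
        (-(((∏ ρ' ∈ Finset.univ.erase ρ, above' ρ' (F₀ ρ').F : ℕ) : ℤ) * (above' ρ F : ℤ))) *
          (above' ρ (F₀ ρ).F : ℤ) = 0
      rw [h1]
      ring
    · intro ρ' _ hne
      rw [hzero ρ' ρ hne.symm]
      simp
    · intro h1
      exact absurd (Finset.mem_univ ρ) h1
  obtain ⟨m, hm, hprod⟩ := law_of_fields hU hE hM R hR h X c hc
  refine ⟨m * N, Nat.mul_pos hm hN, fun V hV => ?_⟩
  have hEj : ∀ ρ, (E.map (algebraMap K (F₀ ρ).F)).IsElliptic := fun ρ => inferInstance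
  choose V₀ hV₀ using fun ρ => exists_minimalModels (E.map (algebraMap K (F₀ ρ).F)) (hEj ρ)
  obtain ⟨u, hu, f, hf, hf', hf''⟩ := hprod (fun o => match o with
    | none => V
    | some ρ => V₀ ρ) (fun o => match o with
    | none => hV
    | some ρ => hV₀ ρ)
  choose v hv g hg hg' hg'' using fun ρ => h₀ ρ (V₀ ρ) (hV₀ ρ)
  obtain ⟨u₀, hu₀, hsub⟩ := hU.inter_fin hv
  have hu1 := hU.2.2 _ hu _ hu₀
  have h1 := (hU.2.1 _ hu1).2.2.1
  refine ⟨u ∩ u₀, hu1, fun s => f s * ∏ ρ, (g ρ s) ^ (-((m : ℤ) * e ρ)), fun s hs => ?_,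
    fun s hs => ?_, ?_⟩
  · exact (hf s hs.1).fun_mul (MeromorphicAt.fun_prod fun ρ _ =>
      MeromorphicAt.fun_zpow (hg ρ s (hsub ρ hs.2)) _)
  · change f s * ∏ ρ, (g ρ s) ^ (-((m : ℤ) * e ρ)) = _
    rw [hf' s hs, Fintype.prod_option]
    change (LS V s) ^ ((m : ℤ) * (N : ℤ)) * (∏ ρ, (LS (V₀ ρ) s) ^ ((m : ℤ) * e ρ)) *
      ∏ ρ, (g ρ s) ^ (-((m : ℤ) * e ρ)) = (LS V s) ^ (((m * N : ℕ) : ℤ))
    rw [mul_assoc, ← Finset.prod_mul_distrib, Finset.prod_eq_one, mul_one, Nat.cast_mul]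
    intro ρ _
    rw [hg' ρ s hs, zpow_one, ← zpow_add₀ (LSeries_ne_zero (hEj ρ) (hV₀ ρ) hs), add_neg_cancel,
      zpow_zero]
  · have hm' : ∀ ρ, MeromorphicAt (g ρ) 1 := fun ρ => hg ρ 1 (hsub ρ h1.2)
    rw [fun_meromorphicOrderAt_mul (hf 1 h1.1)
      (MeromorphicAt.fun_prod fun ρ _ => (hm' ρ).fun_zpow _), hf'']
    have h4 : meromorphicOrderAt (fun s => ∏ ρ, (g ρ s) ^ (-((m : ℤ) * e ρ))) 1 =
        ∑ ρ, meromorphicOrderAt (fun s => (g ρ s) ^ (-((m : ℤ) * e ρ))) 1 := by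
      rw [← meromorphicOrderAt_prod fun ρ _ => (hm' ρ).fun_zpow _]
      congr 1
      ext s
      rw [Finset.prod_apply]
    have h5 : ∀ ρ, meromorphicOrderAt (fun s => (g ρ s) ^ (-((m : ℤ) * e ρ))) 1 =
        ((-((m : ℤ) * e ρ) * (Pool.Agent.Q5.BR.rk (E.map (algebraMap K (F₀ ρ).F)) : ℤ) : ℤ) :
          WithTop ℤ) := by
      intro ρ
      rw [fun_meromorphicOrderAt_zpow (hm' ρ), hg'' ρ]
      rfl
    rw [h4, Finset.sum_congr rfl fun ρ _ => h5 ρ, ← WithTop.coe_sum, ← WithTop.coe_add]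
    congr 1
    rw [Fintype.sum_option]
    change (m : ℤ) * ((N : ℤ) * (Pool.Agent.Q5.BR.rk (E.map (algebraMap K F)) : ℤ) +
      ∑ ρ, e ρ * (Pool.Agent.Q5.BR.rk (E.map (algebraMap K (F₀ ρ).F)) : ℤ)) +
      ∑ ρ, -((m : ℤ) * e ρ) * (Pool.Agent.Q5.BR.rk (E.map (algebraMap K (F₀ ρ).F)) : ℤ) = _
    rw [mul_add, Finset.mul_sum, add_assoc, ← Finset.sum_add_distrib]
    have h6 : ∑ ρ, ((m : ℤ) * (e ρ * (Pool.Agent.Q5.BR.rk (E.map (algebraMap K (F₀ ρ).F)) : ℤ)) +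
        -((m : ℤ) * e ρ) * (Pool.Agent.Q5.BR.rk (E.map (algebraMap K (F₀ ρ).F)) : ℤ)) = 0 :=
      Finset.sum_eq_zero fun ρ _ => by ring
    rw [h6, add_zero, Nat.cast_mul]
    ring

end

end Pool.Agent.Q246.RP
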