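import Pool.Agent.Q246.RP.Rel

/-! The law of real places for the order of vanishing at `s = 1` and the rank. -/

set_option autoImplicit false
set_option linter.unusedSectionVars false

namespace Pool.Agent.Q246.RP

open NumberField IsDedekindDomain Filter Pool.Agent.H341R2 Pool.Agent.H341R2.EC
  Pool.Agent.H921R2.TatePole Pool.Agent.W353.NF Pool.Agent.W401.Cheb Pool.Agent.Q5.BR
open Pool.Agent.TH322.BC.Edge (MinimalModels)
open scoped Topology Classical

open Pool.Agent.TH322.BC.Edge renaming LSeries → LS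

section
variable {K : Type} [Field K] [NumberField K]

/-- `∏ L(E/F_i, s)^(a_i)` has a continuation of order `r` at `s = 1` -/
def ProdB (U : Set (Set ℂ)) {ι : Type} [Fintype ι] (X : ι → Ext K) (E : WeierstrassCurve K)
    (a : ι → ℤ) (r : ℤ) : Prop :=
  ∀ V : ∀ i, HeightOneSpectrum (𝓞 (X i).F) → WeierstrassCurve (𝓞 (X i).F),
    (∀ i, MinimalModels (E.map (algebraMap K (X i).F)) (V i)) →
    ∃ u ∈ U, ∃ f : ℂ → ℂ, MeromorphicOn f u ∧
      (∀ s : ℂ, 3 / 2 < s.re → f s = ∏ i, (LS (V i) s) ^ (a i)) ∧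
      meromorphicOrderAt f 1 = (r : WithTop ℤ)

/-- **The law.** -/
theorem prod_law {U : Set (Set ℂ)} (hU : IsDomains U) {E : WeierstrassCurve K} (hE : E.IsElliptic)
    {𝓕 : Set (IntermediateField K (AlgebraicClosure K))} (hF : AWide 𝓕)
    (h : ∀ F ∈ 𝓕, ∀ [NumberField F], AllB U (E.map (algebraMap K F)) 1
      (Pool.Agent.Q5.BR.rk (E.map (algebraMap K F))))
    {ι : Type} [Fintype ι] (X : ι → Ext K) (c : ι → ℤ)
    (hc : ∀ σ : GK K, IsCC σ → phi X c σ = 0) :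
    ∃ m : ℕ, 0 < m ∧ ProdB U X E (fun i => (m : ℤ) * c i)
      ((m : ℤ) * ∑ i, c i * (Pool.Agent.Q5.BR.rk (E.map (algebraMap K (X i).F)) : ℤ)) := by
  obtain ⟨κ, _, F, n, m, hm, hFj, hrel⟩ := awide_relation hF X c hc
  have hfd : ∀ j, FiniteDimensional K (F j) := fun j => hF.1 _ (hFj j)
  have hnf : ∀ j, NumberField (F j) := fun j => NumberField.of_module_finite K _
  let X₂ : κ → Ext K := fun j => @Ext.mk K _ _ (F j) _ (hnf j) _
  let Y : ι ⊕ κ → Ext K := Sum.elim X X₂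
  let b : ι ⊕ κ → ℤ := Sum.elim (fun i => (m : ℤ) * c i) (fun j => -n j)
  have hY : ∀ σ : GK K, ∑ y, b y * (fixn K (Y y).F σ : ℤ) = 0 := by
    intro σ
    rw [Fintype.sum_sum_type]
    change ∑ i, ((m : ℤ) * c i) * (fixn K (X i).F σ : ℤ) +
      ∑ j, (-n j) * (fixn K (F j) σ : ℤ) = 0
    have h1 := hrel σ
    unfold phi at h1
    rw [Finset.mul_sum] at h1
    simp only [neg_mul, Finset.sum_neg_distrib, mul_assoc]
    rw [h1]
    ring
  refine ⟨m, hm, fun V hV => ?_⟩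
  have hEj : ∀ j, (E.map (algebraMap K (F j))).IsElliptic := fun j => inferInstance
  choose V₂ hV₂ using fun j => @exists_minimalModels (F j) _ (hnf j) (E.map (algebraMap K (F j))) (hEj j)
  obtain ⟨V₀, hV₀⟩ := exists_minimalModels E hE
  let W : ∀ y : ι ⊕ κ, HeightOneSpectrum (𝓞 (Y y).F) → WeierstrassCurve (𝓞 (Y y).F) :=
    fun y => match y with
      | Sum.inl i => V i
      | Sum.inr j => V₂ j
  have hW : ∀ y, MinimalModels (E.map (algebraMap K (Y y).F)) (W y) := by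
    rintro (i | j)
    · exact hV i
    · exact hV₂ j
  obtain ⟨S, hS⟩ := LS_pow (X := Y) (n := b) (m := 0) hY hE hV₀ hW
  choose u huU f hf hf' hf'' using fun j => h (F j) (hFj j) (V₂ j) (hV₂ j)
  obtain ⟨u₀, hu₀, hsub⟩ := hU.inter_fin huU
  have h1 := (hU.2.1 u₀ hu₀).2.2.1
  -- the ranks
  have hrk : ((m : ℤ) * ∑ i, c i * (Pool.Agent.Q5.BR.rk (E.map (algebraMap K (X i).F)) : ℤ)) =
      ∑ j, n j * (Pool.Agent.Q5.BR.rk (E.map (algebraMap K (F j))) : ℤ) := by
    have h2 := rank_relation (X := Y) (n := b) (m := 0) hY hE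
    rw [zero_mul, Fintype.sum_sum_type] at h2
    change ∑ i, ((m : ℤ) * c i) * (Pool.Agent.Q5.BR.rk (E.map (algebraMap K (X i).F)) : ℤ) +
      ∑ j, (-n j) * (Pool.Agent.Q5.BR.rk (E.map (algebraMap K (F j))) : ℤ) = 0 at h2
    simp only [neg_mul, Finset.sum_neg_distrib, mul_assoc] at h2
    rw [← Finset.mul_sum] at h2
    linarith
  have hR := Rfun_meromorphic (X := Y) b 0 V₀ W S
  refine ⟨u₀, hu₀, fun s => (Rfun b 0 V₀ W S s)⁻¹ * ∏ j, (f j s) ^ (n j),
    fun s hs => ?_, fun s hs => ?_, ?_⟩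
  · refine MeromorphicAt.fun_mul ?_ (MeromorphicAt.fun_prod fun j _ => ?_)
    · exact (hR s (Set.mem_univ s)).fun_inv
    · exact MeromorphicAt.fun_zpow (hf j s (hsub j hs)) (n j)
  · have h2 := hS s hs
    rw [zpow_zero, Fintype.prod_sum_type] at h2
    change 1 = Rfun b 0 V₀ W S s * ((∏ i, (LS (V i) s) ^ ((m : ℤ) * c i)) *
      ∏ j, (LS (V₂ j) s) ^ (-n j)) at h2
    have h3 : ∏ j, (f j s) ^ (n j) = (∏ j, (LS (V₂ j) s) ^ (-n j))⁻¹ := by
      rw [← Finset.prod_inv_distrib]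
      refine Finset.prod_congr rfl fun j _ => ?_
      rw [hf' j s hs, zpow_one, zpow_neg, inv_inv]
    have hne : Rfun b 0 V₀ W S s ≠ 0 := left_ne_zero_of_mul (h2.symm.trans_ne one_ne_zero)
    have hne2 : ∏ j, (LS (V₂ j) s) ^ (-n j) ≠ 0 :=
      right_ne_zero_of_mul (right_ne_zero_of_mul (h2.symm.trans_ne one_ne_zero))
    change (Rfun b 0 V₀ W S s)⁻¹ * ∏ j, (f j s) ^ (n j) = ∏ i, (LS (V i) s) ^ ((m : ℤ) * c i)
    rw [h3]
    field_simp
    rw [h2]
    ring
  · have hm : ∀ j, MeromorphicAt (f j) 1 := fun j => hf j 1 (hsub j h1)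
    have hR1 : MeromorphicAt (Rfun b 0 V₀ W S) 1 := hR 1 (Set.mem_univ _)
    rw [fun_meromorphicOrderAt_mul hR1.fun_inv
      (MeromorphicAt.fun_prod fun j _ => (hm j).fun_zpow (n j)), fun_meromorphicOrderAt_inv,
      Rfun_order, neg_zero, zero_add]
    have h4 : meromorphicOrderAt (fun s => ∏ j, (f j s) ^ (n j)) 1 =
        ∑ j, meromorphicOrderAt (fun s => (f j s) ^ (n j)) 1 := by
      rw [← meromorphicOrderAt_prod fun j _ => (hm j).fun_zpow (n j)]
      congr 1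
      ext s
      rw [Finset.prod_apply]
    rw [h4]
    have h5 : ∀ j, meromorphicOrderAt (fun s => (f j s) ^ (n j)) 1 =
        ((n j * (Pool.Agent.Q5.BR.rk (E.map (algebraMap K (F j))) : ℤ) : ℤ) : WithTop ℤ) := by
      intro j
      rw [fun_meromorphicOrderAt_zpow (hm j), hf'' j]
      rfl
    rw [Finset.sum_congr rfl fun j _ => h5 j, ← WithTop.coe_sum]
    congr 1
    exact hrk.symm

end

end Pool.Agent.Q246.RP
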