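import Pool.Agent.Q5.HR.Crit
import Pool.Agent.Q246.RP.Comb
import Pool.Agent.Q246.RP.Conj

/-! Relations between extension fields modulo a family of fields which is met by all automorphisms
except the complex conjugations. -/

set_option autoImplicit false
set_option linter.unusedSectionVars false

namespace Pool.Agent.Q246.RP

open NumberField IsDedekindDomain Filter Pool.Agent.W353.NF Pool.Agent.W401.Cheb
open Pool.Agent.Q5.BR (Ext Rel card_fixed)
open Pool.Agent.Q5.HR (fx mem_fx cj card_mul_fix exists_extension fixn_congr)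
open scoped Topology Classical

section
variable {K : Type} [Field K] [NumberField K]

/-- families of finite extensions, closed under passing to larger extensions, such that every
automorphism which is not a complex conjugation fixes a member -/
def AWide (𝓕 : Set (IntermediateField K (AlgebraicClosure K))) : Prop :=
  (∀ F ∈ 𝓕, FiniteDimensional K F) ∧
  (∀ F ∈ 𝓕, ∀ F' : IntermediateField K (AlgebraicClosure K), FiniteDimensional K F' → F ≤ F' →
    F' ∈ 𝓕) ∧
  ∀ σ : GK K, ¬ IsCC σ → ∃ F ∈ 𝓕, ∀ x ∈ F, σ x = x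

/-- the totally complex fields -/
theorem aWide_complex : AWide {F : IntermediateField K (AlgebraicClosure K) |
    FiniteDimensional K F ∧ IsEmpty (F →+* ℝ)} := by
  refine ⟨fun F h => h.1, fun F h F' hfd hle => ⟨hfd, ⟨fun j => h.2.false
    (j.comp (IntermediateField.inclusion hle).toRingHom)⟩⟩, fun σ hσ => ?_⟩
  by_contra hcon
  push Not at hcon
  refine hσ (isCC_of_real σ fun F hF hFσ => ?_)
  by_contra hne
  obtain ⟨x, hx, hx'⟩ := hcon F ⟨hF, not_nonempty_iff.1 hne⟩
  exact hx' (hFσ x hx)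

theorem AWide.inter {𝓕 𝓖 : Set (IntermediateField K (AlgebraicClosure K))} (hF : AWide 𝓕)
    (hG : Pool.Agent.Q5.HR.Wide 𝓖) : AWide (𝓕 ∩ 𝓖) := by
  refine ⟨fun F h => hF.1 F h.1, fun F h F' hfd hle => ⟨hF.2.1 F h.1 F' hfd hle,
    hG.2.1 F h.2 F' hfd hle⟩, fun σ hσ => ?_⟩
  obtain ⟨F, hFm, hF'⟩ := hF.2.2 σ hσ
  obtain ⟨G, hGm, hG'⟩ := hG.2.2 σ
  have h1 := hF.1 F hFm
  have h2 := hG.1 G hGm
  have h3 : FiniteDimensional K (F ⊔ G : IntermediateField K (AlgebraicClosure K)) :=
    IntermediateField.finiteDimensional_sup F G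
  refine ⟨F ⊔ G, ⟨hF.2.1 F hFm _ h3 le_sup_left, hG.2.1 G hGm _ h3 le_sup_right⟩, ?_⟩
  have h4 : F ⊔ G ≤ fx σ := sup_le (fun x hx => mem_fx.2 (hF' x hx)) (fun x hx => mem_fx.2 (hG' x hx))
  exact fun x hx => mem_fx.1 (h4 hx)

/-- the combination of the permutation characters -/
noncomputable def phi {ι : Type} [Fintype ι] (X : ι → Ext K) (c : ι → ℤ) (σ : GK K) : ℤ :=
  ∑ i, c i * (fixn K (X i).F σ : ℤ)

theorem phi_mul {ι : Type} [Fintype ι] (X : ι → Ext K) (c : ι → ℤ) (σ u : GK K)
    (hu : ∀ i, act K (X i).F u = 1) : phi X c (σ * u) = phi X c σ := by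
  unfold phi
  exact Finset.sum_congr rfl fun i _ => by rw [fixn_mul_ker K (X i).F σ u (hu i)]

theorem phi_conj {ι : Type} [Fintype ι] (X : ι → Ext K) (c : ι → ℤ) (σ ρ : GK K) :
    phi X c (ρ * σ * ρ⁻¹) = phi X c σ := by
  unfold phi
  exact Finset.sum_congr rfl fun i _ => by rw [fixn_conj K (X i).F σ ρ]

/-- **The relation modulo an almost wide family.** -/
theorem awide_relation {𝓕 : Set (IntermediateField K (AlgebraicClosure K))} (hF : AWide 𝓕)
    {ι : Type} [Fintype ι] (X : ι → Ext K) (c : ι → ℤ)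
    (hc : ∀ σ : GK K, IsCC σ → phi X c σ = 0) :
    ∃ (κ : Type) (_ : Fintype κ) (F : κ → IntermediateField K (AlgebraicClosure K)) (n : κ → ℤ)
      (m : ℕ), 0 < m ∧ (∀ j, F j ∈ 𝓕) ∧
      ∀ σ : GK K, (m : ℤ) * phi X c σ = ∑ j, n j * (fixn K (F j) σ : ℤ) := by
  let N₀ : IntermediateField K (AlgebraicClosure K) :=
    ⨆ i, IntermediateField.normalClosure K (X i).F (AlgebraicClosure K)
  have hfd1 : ∀ i, FiniteDimensional K (X i).F := fun i => inferInstance
  have hfdN₀ : FiniteDimensional K N₀ := by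
    have : ∀ i, FiniteDimensional K (IntermediateField.normalClosure K (X i).F (AlgebraicClosure K)) :=
      fun i => inferInstance
    exact IntermediateField.finiteDimensional_iSup_of_finite
  have hnorN₀ : Normal K N₀ := by
    have : ∀ i, Normal K (IntermediateField.normalClosure K (X i).F (AlgebraicClosure K)) :=
      fun i => inferInstance
    exact IntermediateField.normal_iSup (F := K) (K := AlgebraicClosure K)
      (t := fun i => IntermediateField.normalClosure K (X i).F (AlgebraicClosure K))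
  have hle₀ : ∀ i, ∀ f : (X i).F →ₐ[K] AlgebraicClosure K, f.fieldRange ≤ N₀ := fun i f =>
    (AlgHom.fieldRange_le_normalClosure f).trans (le_iSup
      (fun i => IntermediateField.normalClosure K (X i).F (AlgebraicClosure K)) i)
  have hker : ∀ u ∈ N₀.fixingSubgroup, ∀ i, act K (X i).F u = 1 := by
    intro u hu i
    apply Equiv.ext
    intro f
    apply AlgHom.ext
    intro x
    change u (f x) = f x
    exact (IntermediateField.mem_fixingSubgroup_iff _ _).1 hu _ (hle₀ i f ⟨x, rfl⟩)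
  -- the support is compact
  let Z : Set (GK K) := {σ | phi X c σ ≠ 0}
  have hZ : IsCompact Z := by
    refine IsClosed.isCompact ⟨?_⟩
    rw [isOpen_iff_mem_nhds]
    intro τ hτ
    have h1 := (N₀.fixingSubgroup_isOpen).leftCoset τ
    refine Filter.mem_of_superset (h1.mem_nhds ⟨1, one_mem _, mul_one _⟩) ?_
    rintro _ ⟨u, hu, rfl⟩
    have hτ' : phi X c τ = 0 := not_not.1 hτ
    change ¬ (phi X c (τ * u) ≠ 0)
    rw [phi_mul X c τ u (hker u hu), hτ']
    exact fun h => h rfl
  have hchoice : ∀ σ : GK K, ∃ F : IntermediateField K (AlgebraicClosure K),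
      FiniteDimensional K F ∧ (∀ x ∈ F, σ x = x) ∧ (σ ∈ Z → F ∈ 𝓕) := by
    intro σ
    by_cases hσ : σ ∈ Z
    · obtain ⟨F, h1, h2⟩ := hF.2.2 σ fun h => hσ (hc σ h)
      exact ⟨F, hF.1 F h1, h2, fun _ => h1⟩
    · refine ⟨⊥, inferInstance, fun x hx => ?_, fun h => absurd h hσ⟩
      obtain ⟨k, rfl⟩ := IntermediateField.mem_bot.1 hx
      exact σ.commutes k
  choose f hffd hfx hf using hchoice
  obtain ⟨t, htZ, ht⟩ := hZ.elim_nhds_subcover
    (fun σ => ((f σ).fixingSubgroup : Set (GK K))) (fun σ _ =>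
      (f σ).fixingSubgroup_isOpen.mem_nhds fun x => hfx σ x.1 x.2)
  let N₁ : IntermediateField K (AlgebraicClosure K) :=
    ⨆ j : t, IntermediateField.normalClosure K (f j) (AlgebraicClosure K)
  have hfdN₁ : FiniteDimensional K N₁ := by
    have : ∀ j : t, FiniteDimensional K
      (IntermediateField.normalClosure K (f j) (AlgebraicClosure K)) := fun j => inferInstance
    exact IntermediateField.finiteDimensional_iSup_of_finite
  have hnorN₁ : Normal K N₁ := by
    have : ∀ j : t, Normal K (IntermediateField.normalClosure K (f j) (AlgebraicClosure K)) :=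
      fun j => inferInstance
    exact IntermediateField.normal_iSup K (AlgebraicClosure K) _
  have hle₁ : ∀ τ ∈ t, f τ ≤ N₁ := fun τ hτ =>
    (IntermediateField.le_normalClosure (f τ)).trans
      (le_iSup (fun j : t => IntermediateField.normalClosure K (f j) (AlgebraicClosure K)) ⟨τ, hτ⟩)
  let N : IntermediateField K (AlgebraicClosure K) := N₀ ⊔ N₁
  have hfdN : FiniteDimensional K N := IntermediateField.finiteDimensional_sup _ _
  have hnor : Normal K N := IntermediateField.normal_sup K (AlgebraicClosure K) N₀ N₁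
  have hnfN : NumberField N := NumberField.of_module_finite K N
  have hgal : IsGalois K N := {}
  have hle : ∀ i, ∀ g : (X i).F →ₐ[K] AlgebraicClosure K, g.fieldRange ≤ N := fun i g =>
    (hle₀ i g).trans le_sup_left
  have : Fintype (Subgroup (N ≃ₐ[K] N)) := Fintype.ofFinite _
  -- the function on the finite group
  let φ : (N ≃ₐ[K] N) → ℤ := fun g =>
    ∑ i, c i * (Nat.card {a : (X i).F →ₐ[K] N // (g : N →ₐ[K] N).comp a = a} : ℤ)
  have hφσ : ∀ σ : GK K, φ (AlgEquiv.restrictNormal σ N) = phi X c σ := by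
    intro σ
    refine Finset.sum_congr rfl fun i _ => ?_
    rw [card_fixed (X i).F N (hle i) σ]
  have hsurj : ∀ g : N ≃ₐ[K] N, ∃ σ : GK K, AlgEquiv.restrictNormal σ N = g := fun g =>
    AlgEquiv.restrictNormalHom_surjective (AlgebraicClosure K) (K₁ := N) g
  have hresmul : ∀ σ τ : GK K, AlgEquiv.restrictNormal (σ * τ) N =
      AlgEquiv.restrictNormal σ N * AlgEquiv.restrictNormal τ N := fun σ τ =>
    map_mul (AlgEquiv.restrictNormalHom N) σ τ
  have hresinv : ∀ σ : GK K, AlgEquiv.restrictNormal (σ⁻¹) N =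
      (AlgEquiv.restrictNormal σ N)⁻¹ := fun σ => map_inv (AlgEquiv.restrictNormalHom N) σ
  have hφz : ∀ g h : N ≃ₐ[K] N, Subgroup.zpowers g = Subgroup.zpowers h → φ g = φ h := by
    intro g h hgh
    refine Finset.sum_congr rfl fun i _ => ?_
    congr 2
    refine Nat.card_congr (Equiv.subtypeEquivRight fun a => ?_)
    have key : ∀ g : N ≃ₐ[K] N, (g : N →ₐ[K] N).comp a = a ↔
        Subgroup.zpowers g ≤ a.fieldRange.fixingSubgroup := by
      intro g
      rw [Subgroup.zpowers_le, IntermediateField.mem_fixingSubgroup_iff]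
      constructor
      · rintro h _ ⟨y, rfl⟩
        exact DFunLike.congr_fun h y
      · intro h
        apply AlgHom.ext
        intro y
        exact h _ ⟨y, rfl⟩
    rw [key, key, hgh]
  have hφc : ∀ g x : N ≃ₐ[K] N, φ (x⁻¹ * g * x) = φ g := by
    intro g x
    obtain ⟨σ, rfl⟩ := hsurj g
    obtain ⟨τ, rfl⟩ := hsurj x
    have h1 := phi_conj X c σ τ⁻¹
    rw [inv_inv] at h1
    rw [← hresinv, ← hresmul, ← hresmul, hφσ, hφσ, h1]
  let 𝒮 : Set (Subgroup (N ≃ₐ[K] N)) :=
    {B | IntermediateField.lift (IntermediateField.fixedField B) ∈ 𝓕}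
  have hfdl : ∀ B : Subgroup (N ≃ₐ[K] N),
      FiniteDimensional K (IntermediateField.lift (IntermediateField.fixedField B)) := fun B =>
    LinearEquiv.finiteDimensional
      (IntermediateField.liftAlgEquiv (IntermediateField.fixedField B)).toLinearEquiv
  have hdown : ∀ C ∈ 𝒮, ∀ B ≤ C, B ∈ 𝒮 := by
    intro C hC B hBC
    refine hF.2.1 _ hC _ (hfdl B) ?_
    intro x hx
    have hxN : x ∈ N := IntermediateField.lift_le _ hx
    have h1 : (⟨x, hxN⟩ : N) ∈ IntermediateField.fixedField C :=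
      (IntermediateField.mem_lift ⟨x, hxN⟩).1 hx
    refine (IntermediateField.mem_lift ⟨x, hxN⟩).2 ?_
    rw [IntermediateField.mem_fixedField_iff] at h1 ⊢
    exact fun g hg => h1 g (hBC hg)
  have hS : ∀ g, φ g ≠ 0 → Subgroup.zpowers g ∈ 𝒮 := by
    intro g hg
    obtain ⟨σ, rfl⟩ := hsurj g
    rw [hφσ] at hg
    obtain ⟨τ, hτ⟩ := Set.mem_iUnion.1 (ht (show σ ∈ Z from hg))
    obtain ⟨hτt, hτ'⟩ := Set.mem_iUnion.1 hτ
    refine hF.2.1 _ (hf τ (htZ τ hτt)) _ (hfdl _) ?_
    intro x hx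
    have hxN : x ∈ N := (le_sup_right : N₁ ≤ N₀ ⊔ N₁) (hle₁ τ hτt hx)
    refine (IntermediateField.mem_lift ⟨x, hxN⟩).2 ?_
    rw [IntermediateField.mem_fixedField_iff]
    have h2 : (AlgEquiv.restrictNormal σ N) ⟨x, hxN⟩ = ⟨x, hxN⟩ := by
      apply (algebraMap N (AlgebraicClosure K)).injective
      have h3 := AlgEquiv.restrictNormal_commutes σ N ⟨x, hxN⟩
      refine h3.trans ?_
      exact (IntermediateField.mem_fixingSubgroup_iff _ _).1 hτ' x hx
    rintro _ ⟨k, rfl⟩
    have h4 : (AlgEquiv.restrictNormal σ N) ∈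
        MulAction.stabilizer (N ≃ₐ[K] N) (⟨x, hxN⟩ : N) := h2
    exact Subgroup.zpow_mem _ h4 k
  obtain ⟨n, hn, hn'⟩ := artinS (G := N ≃ₐ[K] N) (𝒮 := 𝒮) hdown (fix := fun B g =>
    (Nat.card {i : IntermediateField.fixedField B →ₐ[K] N // (g : N →ₐ[K] N).comp i = i} : ℤ))
    (fun B g => by
      have h := card_mul_fix B g
      exact_mod_cast h) φ (fun g h x hx => by
        rw [← hφc g x]
        exact hφz _ _ hx) hS
  have hrange : ∀ B : Subgroup (N ≃ₐ[K] N), ∀ i : IntermediateField.fixedField B →ₐ[K]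
      AlgebraicClosure K, i.fieldRange ≤ N := by
    rintro B i _ ⟨z, rfl⟩
    obtain ⟨f, hf⟩ := exists_extension (N := N) i
    have h2 : f.fieldRange = N := AlgHom.fieldRange_of_normal f
    change i z ∈ N
    have h3 : i z ∈ f.fieldRange := ⟨_, hf z⟩
    exact h2.le h3
  refine ⟨{B : Subgroup (N ≃ₐ[K] N) // n B ≠ 0}, inferInstance,
    fun B => IntermediateField.lift (IntermediateField.fixedField B.1), fun B => n B.1,
    Nat.card (N ≃ₐ[K] N), Nat.card_pos, fun B => hn B.1 B.2, fun σ => ?_⟩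
  rw [← hφσ, ← hn' (AlgEquiv.restrictNormal σ N)]
  have h1 : ∀ B : Subgroup (N ≃ₐ[K] N),
      n B * (fixn K (IntermediateField.lift (IntermediateField.fixedField B)) σ : ℤ) =
      n B * (Nat.card {i : IntermediateField.fixedField B →ₐ[K] N //
        ((AlgEquiv.restrictNormal σ N : N ≃ₐ[K] N) : N →ₐ[K] N).comp i = i} : ℤ) := by
    intro B
    rw [← fixn_congr (IntermediateField.liftAlgEquiv (IntermediateField.fixedField B)) σ,
      card_fixed (IntermediateField.fixedField B) N (hrange B) σ]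
  rw [← Finset.sum_congr rfl fun B _ => h1 B]
  have h2 : ∀ B : Subgroup (N ≃ₐ[K] N), B ∈ Finset.univ.filter (fun B => n B ≠ 0) ↔ n B ≠ 0 := by
    intro B
    simp
  rw [← Finset.sum_subtype (Finset.univ.filter (fun B => n B ≠ 0)) h2
    (fun B => n B * (fixn K (IntermediateField.lift (IntermediateField.fixedField B)) σ : ℤ))]
  rw [Finset.sum_filter_of_ne]
  intro B _ hB h3
  apply hB
  rw [h3, zero_mul]

end

end Pool.Agent.Q246.RP
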